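import Pool.Agent.MWT.Stmts

/-!
MWT, row STB: a step with `x` and thick `y` keeps both classes.
-/

set_option autoImplicit false

namespace Pool.Agent.MWT.H23

open Pool.Agent.Helper14_MV Pool.Agent.Helper2_MV Pool.Agent.MVD Pool.Agent.MWT

theorem cnt0 (B : ℕ → List ℕ) (e : ℕ) (he : e % 3 = 0) :
    ∀ R : List ℕ, (∀ r ∈ R, e ∉ B r) → (Bw R B).count e = 0
  | [], _ => rfl
  | r :: R, h => by
    have ih := cnt0 B e he R (fun s hs => h s (List.mem_cons_of_mem _ hs))
    have e1 : Bw (r :: R) B = B r ++ (3 * r + 2) :: Bw R B := by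
      unfold Bw
      rw [List.flatMap_cons, List.append_assoc]
      rfl
    have e2 : (B r).count e = 0 := List.count_eq_zero.2 (h r List.mem_cons_self)
    rw [e1, List.count_append, e2, List.count_cons_of_ne (by omega), ih]

theorem cntB (B : ℕ → List ℕ) (e : ℕ) (he : e % 3 = 0) :
    ∀ R : List ℕ, R.Nodup → (∀ r ∈ R, r ≠ 0 → e ∉ B r) → (Bw R B).count e ≤ (B 0).count e
  | [], _, _ => Nat.zero_le _
  | r :: R, hn, h => by
    have e1 : Bw (r :: R) B = B r ++ (3 * r + 2) :: Bw R B := by
      unfold Bw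
      rw [List.flatMap_cons, List.append_assoc]
      rfl
    rw [e1, List.count_append, List.count_cons_of_ne (by omega)]
    obtain ⟨h1, h2⟩ := List.nodup_cons.1 hn
    by_cases hr : r = 0
    · subst hr
      rw [cnt0 B e he R (fun s hs => h s (List.mem_cons_of_mem _ hs)
        (fun h0 => h1 (h0 ▸ hs)))]
      omega
    · have e2 : (B r).count e = 0 := List.count_eq_zero.2 (h r List.mem_cons_self hr)
      have ih := cntB B e he R h2 (fun s hs => h s (List.mem_cons_of_mem _ hs))
      omega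

theorem cntP (φ : ℕ → List ℕ) (e x : ℕ) (h : e ∈ φ x) :
    ∀ k, k ≤ ((P k x).flatMap φ).count e
  | 0 => Nat.zero_le _
  | k + 1 => by
    have ih := cntP φ e x h k
    have h1 : 0 < (φ x).count e := List.count_pos_iff.2 h
    have e1 : (P (k + 1) x).flatMap φ = φ x ++ (P k x).flatMap φ := by
      unfold P
      rw [List.replicate_succ, List.flatMap_cons]
    rw [e1, List.count_append]
    omega

theorem SFr_P (k x : ℕ) : x ∈ P (k + 1) x := by
  unfold P
  rw [List.replicate_succ]
  exact List.mem_cons_self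

/-- **STB**. -/
theorem stb (tgw : TgwStmt) (kpj : KpjStmt) (cvx : CvxStmt) (swx : SwxStmt) (nsl : NslStmt)
    (pwx : PwxStmt) : StbStmt := by
  intro n β m R c a a' M N φ hS ha ha' hKx hKy
  have hn : 1 ≤ n := hS.wo.hn
  have ha1 : 1 ≤ a := by rcases ha with h | h <;> omega
  obtain ⟨B, t, hw, hT, hlast⟩ := tgw n β m R c (M ++ ((Ww R c a (n + 1)).flatMap φ ++ N))
    (fun e => e = 0 ∨ e = 3 ∨ e = 6) hS (Or.inl hKx) (fun e he => he) (by
      intro e he κ
      rcases he with h | h
      · exact (kpj n β R c _).2 hKy e (Or.inl h) κ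
      · exact (kpj n β R c _).1 hKx e h κ)
  obtain ⟨⟨A, C, D, hA, hC, hD, hWw⟩, -⟩ := swx n m R c (n + 1) hS.pR hS.cn
  -- no thin letter in the image of x
  have hne : ∀ e, (e = 0 ∨ e = 3 ∨ e = 6) → e ∉ φ 0 := by
    rcases ha with h | h
    · subst h
      exact cvx n m R c (fun e => e = 0 ∨ e = 3 ∨ e = 6) B t (n + 1) M N φ hS.cn hn hS.m1
        (by omega) hS.pR hT hw (Or.inr (Or.inl rfl)) (Or.inr (Or.inr rfl)) (fun h => by omega)
    · intro e he hcon
      have he3 : e % 3 = 0 := by rcases he with h | h | h <;> omega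
      have c1 := cntP φ e 0 hcon a
      have c2 : 2 * a ≤ (M ++ ((Ww R c a (n + 1)).flatMap φ ++ N)).count e := by
        rw [hWw a]
        simp only [List.flatMap_append, List.count_append]
        omega
      rw [hw, List.count_append, List.count_eq_zero.2 (hT.te e he)] at c2
      have c3 := cntB B e he3 (R7 R) hT.nd (hT.tb e he)
      have c4 := hT.tw e he
      omega
  have hns := (nsl n m R c (fun e => e = 0 ∨ e = 3 ∨ e = 6) B t a (n + 1) M N φ hS.cn hn ha1
    (by omega) hS.pR hT hw).1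
  have hloc : ∀ s ∈ φ 0, s % 3 = 0 ∧ 42 ≤ s := by
    intro s hs
    refine ⟨hns s hs, ?_⟩
    have hsw : s ∈ Bw (R7 R) B ++ t := by
      rw [← hw, hWw a]
      apply List.mem_append_right
      apply List.mem_append_left
      refine List.mem_flatMap.2 ⟨0, ?_, hs⟩
      apply List.mem_append_right
      apply List.mem_append_left
      have : a = (a - 1) + 1 := by omega
      rw [this]
      exact SFr_P _ _
    rcases hlast s hsw (hns s hs) with h | h | h | h
    · exact absurd (h ▸ hs) (hne 0 (Or.inl rfl))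
    · exact absurd (h ▸ hs) (hne 3 (Or.inr (Or.inl rfl)))
    · exact absurd (h ▸ hs) (hne 6 (Or.inr (Or.inr rfl)))
    · exact h
  have hp := (pwx n β m R c a a' (n + 1) M N φ hS.wo hS.pR hS.cn ha ha').1
  exact ⟨β.trans hKx (hp 0 (fun s hs => Or.inr (hloc s hs))),
    β.trans hKy (hp 6 (fun s hs => Or.inr (hloc s hs)))⟩

end Pool.Agent.MWT.H23
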